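import Mathlib

set_option autoImplicit false

namespace Pool.Agent.Results.MP_14f59b_co.Counter

open Finset

/-- A ballot for three offices: for each office a bijection from positions to candidates. -/
abbrev Ballot (a b c : ℕ) := (Fin a ≃ Fin a) × (Fin b ≃ Fin b) × (Fin c ≃ Fin c)

/-- A balanced ballot system. -/
def Balanced {a b c : ℕ} (S : Finset (Ballot a b c)) (w : Ballot a b c → ℕ) : Prop :=
  S.Nonempty ∧ (∀ β ∈ S, 0 < w β) ∧
    (∀ p x y : Fin a, ∑ β ∈ S with β.1 p = x, w β = ∑ β ∈ S with β.1 p = y, w β) ∧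
    (∀ p x y : Fin b, ∑ β ∈ S with β.2.1 p = x, w β = ∑ β ∈ S with β.2.1 p = y, w β) ∧
    (∀ p x y : Fin c, ∑ β ∈ S with β.2.2 p = x, w β = ∑ β ∈ S with β.2.2 p = y, w β)

def L : List ((Fin 7 × Fin 8 × Fin 9) × ℕ) := [((0, 1, 8), 56), ((0, 4, 1), 16), ((1, 0, 5), 23),
  ((1, 6, 0), 49), ((2, 3, 6), 56), ((2, 4, 3), 2), ((2, 5, 3), 14), ((3, 2, 7), 23),
  ((3, 5, 2), 49), ((4, 0, 1), 40), ((4, 2, 3), 25), ((4, 3, 2), 7), ((5, 4, 4), 12),
  ((5, 4, 5), 33), ((5, 7, 4), 8), ((5, 7, 7), 19), ((6, 1, 0), 7), ((6, 2, 3), 15),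
  ((6, 6, 7), 14), ((6, 7, 4), 36)]

def tr (i : Fin 20) : Fin 7 × Fin 8 × Fin 9 := (L.getD i ((0, 0, 0), 0)).1
def wt (t : Fin 7 × Fin 8 × Fin 9) : ℕ := (L.lookup t).getD 0
def be (i : Fin 20) : Ballot 7 8 9 :=
  (Equiv.addRight (tr i).1, Equiv.addRight (tr i).2.1, Equiv.addRight (tr i).2.2)
def ww (β : Ballot 7 8 9) : ℕ := wt (β.1 0, β.2.1 0, β.2.2 0)

lemma ww_be (i : Fin 20) : ww (be i) = wt (tr i) := by simp [ww, be]

lemma tr_inj : ∀ i j : Fin 20, tr i = tr j → i = j := by decide +kernel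

lemma be_inj : Function.Injective be := by
  intro i j h
  apply tr_inj
  have h1 := congrArg (fun β : Ballot 7 8 9 => (β.1 0, β.2.1 0, β.2.2 0)) h
  simpa [be] using h1

lemma s1 : ∀ p x : Fin 7, ∑ i : Fin 20, (if p + (tr i).1 = x then wt (tr i) else 0) = 72 := by
  decide +kernel
lemma s2 : ∀ p x : Fin 8, ∑ i : Fin 20, (if p + (tr i).2.1 = x then wt (tr i) else 0) = 63 := by
  decide +kernel
lemma s3 : ∀ p x : Fin 9, ∑ i : Fin 20, (if p + (tr i).2.2 = x then wt (tr i) else 0) = 56 := by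
  decide +kernel
lemma pos : ∀ i : Fin 20, 0 < wt (tr i) := by decide +kernel

lemma main : Balanced (univ.image be) ww := by
  refine ⟨⟨be 0, mem_image_of_mem _ (mem_univ _)⟩, ?_, fun p x y => ?_, fun p x y => ?_,
    fun p x y => ?_⟩
  · intro β hβ
    obtain ⟨i, _, rfl⟩ := mem_image.mp hβ
    rw [ww_be]; exact pos i
  · simp only [sum_filter, sum_image be_inj.injOn, ww_be]
    exact (s1 p x).trans (s1 p y).symm
  · simp only [sum_filter, sum_image be_inj.injOn, ww_be]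
    exact (s2 p x).trans (s2 p y).symm
  · simp only [sum_filter, sum_image be_inj.injOn, ww_be]
    exact (s3 p x).trans (s3 p y).symm

theorem result : ∃ (n : ℕ) (S : Finset (Ballot (2 * n - 1) (2 * n) (2 * n + 1)))
    (w : Ballot (2 * n - 1) (2 * n) (2 * n + 1) → ℕ),
    0 < n ∧ Balanced S w ∧ S.card + 4 ≤ 6 * n := by
  refine ⟨4, univ.image be, ww, by norm_num, main, ?_⟩
  have : (univ.image be).card ≤ 20 := card_image_le.trans (by simp)
  exact Nat.add_le_add_right this 4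

end Pool.Agent.Results.MP_14f59b_co.Counter
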